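import Pool.Agent.H378.HN.Lib
import Pool.Agent.H378.HN.Row

/-!
# Derived invariance of Hodge numbers: all or nothing

`V` is the commutative monoid of the isomorphism classes of smooth projective complex varieties (product of
varieties), `D.h X p q` the Hodge number `h^{p,q}(X)`, `D.dim` the dimension, `D.deq` derived equivalence.
`IsHodge D` lists the standard facts that are used: `h^{0,0} = 1`, Hodge symmetry, Serre duality, the
Künneth formula, `D(X) ≃ D(Y)` implies `D(X × Z) ≃ D(Y × Z)`, `dim X = dim Y` and the equality of the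
Hochschild homology; the E-polynomials of projective spaces, elliptic curves, of blow-ups of projective
spaces in disjoint unions of given varieties, and of the free quotients
`W_q(X) = (X^q × C) / (ℤ/q)`, `q` a prime, `C` an elliptic curve (with `D(W_q(X)) ≃ D(W_q(Y))` for
derived equivalent `X, Y`: Orlov, Ploog); and there are Calabi–Yau varieties of every dimension (used
only in (3)).

**Theorem.** (1) Either all Hodge numbers are derived invariants, or there are derived equivalent `X, Y` and
a number `c` with the following property: for every finite window `[c, K]²` and every symmetric function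
`r(p, q)` with integral values, even on the diagonal, there is a `Z` with
`h^{p,q}(X × Z) - h^{p,q}(Y × Z) = r(p, q)` for all `p, q` in the window. (So every integer is a difference
of the numbers `h^{p,q}`, `p ≠ q` in `[c, ∞)`, of derived equivalent varieties, and the differences for
different `p, q` are independent, up to the Hodge symmetry.)

(2) So Q1 is equivalent to each of the following weak statements.
* For some `N ≥ 2` all Hodge numbers modulo `N` are derived invariants.
* There are arbitrarily large `p, q` such that the single number `h^{p,q}` modulo some `N ≥ 2` (`N ≥ 3` if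
  `p = q`) is a derived invariant.
* Arbitrarily far out there is a finite pattern (as above) that is not the pattern of the differences
  of the Hodge numbers of derived equivalent varieties.
* Arbitrarily far out there is a nonzero real linear form in finitely many Hodge numbers `h^{p,q}`, `p ≥ q`,
  whose differences for derived equivalent varieties are bounded below.
* For some odd `N ≥ 3` (for example `3`) and infinitely many `m` the middle Hodge number `h^{m,m}` modulo
  `N` of `2 m`-dimensional varieties is a derived invariant.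

(3) The numbers `h^{0,q}`, `q ≥ 0`, are derived invariants if and only if for some `N ≥ 2` and infinitely
many `q` the number `h^{0,q}` modulo `N` is a derived invariant.
-/

set_option autoImplicit false

open Pool.Agent.H378.HN Finset

namespace Pool.Agent.Results.MP_b4fe5e_ag.AllOrNothing

/-- **All or nothing.** See the explanations above. -/
theorem result {V : Type} [CommMonoid V] {D : HodgeData V} (h : IsHodge D) :
    ((∀ X Y, D.deq X Y → ∀ p q, D.h X p q = D.h Y p q) ∨
      ∃ X Y, D.deq X Y ∧ ∃ c : ℕ, ∀ (K : ℕ) (r : ℕ → ℕ → ℤ), (∀ p q, r p q = r q p) →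
        (∀ p, Even (r p p)) → ∃ Z, ∀ p q, c ≤ p → c ≤ q → p ≤ K → q ≤ K →
          (D.h (X * Z) p q : ℤ) - D.h (Y * Z) p q = r p q) ∧
    List.TFAE [
      ∀ X Y, D.deq X Y → ∀ p q, D.h X p q = D.h Y p q,
      ∃ N ≥ 2, ∀ X Y, D.deq X Y → ∀ p q, D.h X p q ≡ D.h Y p q [MOD N],
      ∀ c, ∃ p ≥ c, ∃ q ≥ c, ∃ N ≥ 2, (p = q → 3 ≤ N) ∧
        ∀ X Y, D.deq X Y → D.h X p q ≡ D.h Y p q [MOD N],
      ∀ c, ∃ (K : ℕ) (r : ℕ → ℕ → ℤ), (∀ p q, r p q = r q p) ∧ (∀ p, Even (r p p)) ∧
        ∀ X Y, D.deq X Y → ∃ p q, c ≤ p ∧ c ≤ q ∧ p ≤ K ∧ q ≤ K ∧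
          (D.h X p q : ℤ) - D.h Y p q ≠ r p q,
      ∀ c, ∃ (K : ℕ) (lam : ℕ → ℕ → ℝ), (∃ p q, c ≤ q ∧ q ≤ p ∧ p ≤ K ∧ lam p q ≠ 0) ∧
        ∃ B : ℝ, ∀ X Y, D.deq X Y →
          B ≤ ∑ p ∈ Icc c K, ∑ q ∈ Icc c p, lam p q * ((D.h X p q : ℝ) - D.h Y p q),
      ∃ N ≥ 3, Odd N ∧ ∀ c, ∃ m ≥ c, ∀ X Y, D.deq X Y → D.dim X = 2 * m →
        D.h X m m ≡ D.h Y m m [MOD N]] ∧
    ((∀ X Y, D.deq X Y → ∀ q, D.h X 0 q = D.h Y 0 q) ↔
      ∃ N ≥ 2, ∀ c, ∃ q ≥ c, ∀ X Y, D.deq X Y → D.h X 0 q ≡ D.h Y 0 q [MOD N]) := by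
  have main : (∀ X Y, D.deq X Y → ∀ p q, D.h X p q = D.h Y p q) ∨
      ∃ X Y, D.deq X Y ∧ ∃ c : ℕ, ∀ (K : ℕ) (r : ℕ → ℕ → ℤ), (∀ p q, r p q = r q p) →
        (∀ p, Even (r p p)) → ∃ Z, ∀ p q, c ≤ p → c ≤ q → p ≤ K → q ≤ K →
          (D.h (X * Z) p q : ℤ) - D.h (Y * Z) p q = r p q := by
    by_cases h0 : ∀ X Y, D.deq X Y → ∀ p q, D.h X p q = D.h Y p q
    · exact Or.inl h0
    · right
      push Not at h0
      obtain ⟨X, Y, hXY, p, q, hpq⟩ := h0
      obtain ⟨X', Y', hXY', hP⟩ := exists_prim h hXY hpq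
      exact ⟨X', Y', hXY', D.dim X' + 2, fun K r hr hr2 => window h hXY' hP K r hr hr2⟩
  refine ⟨main, ?_, fun h1 => ⟨2, le_rfl, fun c => ⟨c, le_rfl, fun X Y hXY => by
    rw [h1 X Y hXY]⟩⟩, fun ⟨N, hN, h1⟩ => row h hN h1⟩
  tfae_have 1 → 2 := fun h1 => ⟨2, le_rfl, fun X Y hXY p q => by rw [h1 X Y hXY]⟩
  tfae_have 2 → 3 := by
    rintro ⟨N, hN, h1⟩ c
    exact ⟨c + 1, by omega, c, le_rfl, N, hN, by omega, fun X Y hXY => h1 X Y hXY _ _⟩
  tfae_have 3 → 4 := by
    intro h1 c
    obtain ⟨p, hp, q, hq, N, hN, hN', h2⟩ := h1 c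
    -- the pattern
    let t : ℤ := if p = q then 2 else 1
    refine ⟨max p q, fun a b => if (a = p ∧ b = q) ∨ (a = q ∧ b = p) then t else 0, ?_, ?_, ?_⟩
    · intro a b
      have : ((a = p ∧ b = q) ∨ (a = q ∧ b = p)) ↔ ((b = p ∧ a = q) ∨ (b = q ∧ a = p)) := by omega
      simp only [this]
    · intro a
      simp only
      split_ifs with h3
      · have h4 : p = q := by omega
        change Even (if p = q then (2 : ℤ) else 1)
        rw [if_pos h4]
        exact even_two
      · exact Even.zero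
    · intro X Y hXY
      refine ⟨p, q, hp, hq, le_max_left _ _, le_max_right _ _, ?_⟩
      beta_reduce
      rw [if_pos (Or.inl ⟨rfl, rfl⟩)]
      intro h3
      have h4 := (Nat.modEq_iff_dvd.mp (h2 X Y hXY).symm)
      rw [h3] at h4
      change (N : ℤ) ∣ (if p = q then (2 : ℤ) else 1) at h4
      split_ifs at h4 with h5
      · have h6 := Int.le_of_dvd (by norm_num) h4
        have := hN' h5
        omega
      · have h6 := Int.le_of_dvd (by norm_num) h4
        omega
  tfae_have 4 → 1 := by
    intro h1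
    rcases main with h2 | ⟨X, Y, hXY, c, h2⟩
    · exact h2
    · obtain ⟨K, r, hr, hr2, h3⟩ := h1 c
      obtain ⟨Z, hZ⟩ := h2 K r hr hr2
      obtain ⟨p, q, a1, a2, a3, a4, h4⟩ := h3 (X * Z) (Y * Z) (h.deq_mul _ _ _ hXY)
      exact absurd (hZ p q a1 a2 a3 a4) h4
  tfae_have 1 → 5 := by
    intro h1 c
    refine ⟨c, fun _ _ => 1, ⟨c, c, le_rfl, le_rfl, le_rfl, one_ne_zero⟩, 0, fun X Y hXY => ?_⟩
    refine le_of_eq (Finset.sum_eq_zero fun p _ => Finset.sum_eq_zero fun q _ => ?_).symm
    rw [h1 X Y hXY, sub_self, mul_zero]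
  tfae_have 5 → 1 := by
    intro h1
    rcases main with h2 | ⟨X, Y, hXY, c, h2⟩
    · exact h2
    · exfalso
      obtain ⟨K, lam, ⟨p, q, hcq, hqp, hpK, hne⟩, B, hB⟩ := h1 c
      -- an even number `t` with `lam p q * t < B`
      obtain ⟨t, ht, htB⟩ : ∃ t : ℤ, Even t ∧ lam p q * t < B := by
        obtain ⟨n, hn⟩ := exists_int_gt (|B| / |lam p q|)
        have hpos : 0 < |lam p q| := abs_pos.mpr hne
        have hn' : |B| < n * |lam p q| := (div_lt_iff₀ hpos).mp hn
        have hn0 : (0 : ℝ) < n := lt_of_le_of_lt (by positivity) hn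
        rcases lt_or_gt_of_ne hne with hl | hl
        · refine ⟨2 * n, even_two_mul n, ?_⟩
          rw [abs_of_neg hl] at hn'
          push_cast
          have := neg_abs_le B
          nlinarith [neg_pos.mpr hl, mul_pos hn0 (neg_pos.mpr hl)]
        · refine ⟨-(2 * n), (even_two_mul n).neg, ?_⟩
          rw [abs_of_pos hl] at hn'
          push_cast
          have := neg_abs_le B
          nlinarith [mul_pos hn0 hl]
      obtain ⟨Z, hZ⟩ := h2 K (fun a b => if (a = p ∧ b = q) ∨ (a = q ∧ b = p) then t else 0)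
        (by
          intro a b
          have : ((a = p ∧ b = q) ∨ (a = q ∧ b = p)) ↔ ((b = p ∧ a = q) ∨ (b = q ∧ a = p)) := by
            omega
          simp only [this])
        (by
          intro a
          split_ifs
          · exact ht
          · exact Even.zero)
      have h3 := hB (X * Z) (Y * Z) (h.deq_mul _ _ _ hXY)
      rw [Finset.sum_eq_single p, Finset.sum_eq_single q] at h3
      · have h4 := hZ p q (by omega) hcq hpK (by omega)
        rw [if_pos (Or.inl ⟨rfl, rfl⟩)] at h4
        have h5 : (D.h (X * Z) p q : ℝ) - D.h (Y * Z) p q = t := by exact_mod_cast h4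
        rw [h5] at h3
        exact absurd htB (not_lt.mpr h3)
      · intro b hb hbq
        rw [mem_Icc] at hb
        have h4 := hZ p b (by omega) (by omega) hpK (by omega)
        rw [if_neg (by omega)] at h4
        have h5 : (D.h (X * Z) p b : ℝ) - D.h (Y * Z) p b = 0 := by exact_mod_cast h4
        rw [h5, mul_zero]
      · intro h4; exact absurd (mem_Icc.mpr ⟨hcq, hqp⟩) h4
      · intro a ha hap
        rw [mem_Icc] at ha
        refine Finset.sum_eq_zero fun b hb => ?_
        rw [mem_Icc] at hb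
        have h4 := hZ a b (by omega) (by omega) (by omega) (by omega)
        rw [if_neg (by omega)] at h4
        have h5 : (D.h (X * Z) a b : ℝ) - D.h (Y * Z) a b = 0 := by exact_mod_cast h4
        rw [h5, mul_zero]
      · intro h4; exact absurd (mem_Icc.mpr ⟨by omega, hpK⟩) h4
  tfae_have 1 → 6 := fun h1 =>
    ⟨3, le_rfl, by decide, fun c => ⟨c, le_rfl, fun X Y hXY _ => by rw [h1 X Y hXY]⟩⟩
  tfae_have 6 → 1 := by
    rintro ⟨N, hN, hodd, h1⟩
    exact of_middle h hN hodd h1
  tfae_finish

end Pool.Agent.Results.MP_b4fe5e_ag.AllOrNothing
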